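import Mathlib

set_option autoImplicit false

/-! # The profile lemma -/

namespace Pool.Agent.Helper75.E43

open Finset MeasureTheory

lemma layer (a f b : ℝ) (ha : 0 ≤ a) :
    max (min f b - a) 0 = ∫ s in Set.Ioo (0 : ℝ) b, (if a < s ∧ s < f then (1 : ℝ) else 0) := by
  have h1 : (fun s : ℝ => if a < s ∧ s < f then (1 : ℝ) else 0) = (Set.Ioo a f).indicator 1 := by
    funext s
    simp [Set.indicator_apply]
  rw [h1, integral_indicator_one measurableSet_Ioo, measureReal_restrict_apply measurableSet_Ioo,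
    Set.Ioo_inter_Ioo, Real.volume_real_Ioo]
  rw [max_comm, max_eq_left ha, max_comm]

lemma layer_int (a f b : ℝ) :
    IntegrableOn (fun s : ℝ => if a < s ∧ s < f then (1 : ℝ) else 0) (Set.Ioo (0 : ℝ) b) := by
  have h1 : (fun s : ℝ => if a < s ∧ s < f then (1 : ℝ) else 0) = (Set.Ioo a f).indicator 1 := by
    funext s
    simp [Set.indicator_apply]
  rw [h1]
  refine Integrable.indicator ?_ measurableSet_Ioo
  exact integrable_const 1

/-- Layer cake for a pair of finite families. -/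
lemma double_layer {Z W : Type*} [Fintype Z] [Fintype W] (f : Z → ℝ) (a : W → ℝ) (b K : ℝ)
    (hb : 0 ≤ b) (ha : ∀ w, 0 ≤ a w)
    (h : ∀ s ∈ Set.Ioo (0 : ℝ) b,
      ((univ.filter (fun z => s < f z)).card : ℝ) * (univ.filter (fun w => a w < s)).card ≤ K) :
    ∑ w, ∑ z, max (min (f z) b - a w) 0 ≤ K * b := by
  have h1 : ∑ w, ∑ z, max (min (f z) b - a w) 0
      = ∫ s in Set.Ioo (0 : ℝ) b, ∑ w, ∑ z, (if a w < s ∧ s < f z then (1 : ℝ) else 0) := by
    rw [integral_finsetSum _ (fun w _ => integrable_finsetSum _ (fun z _ => layer_int _ _ _))]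
    refine sum_congr rfl fun w _ => ?_
    rw [integral_finsetSum _ (fun z _ => layer_int _ _ _)]
    exact sum_congr rfl fun z _ => layer _ _ _ (ha w)
  have h2 : ∀ s : ℝ, ∑ w, ∑ z, (if a w < s ∧ s < f z then (1 : ℝ) else 0)
      = ((univ.filter (fun z => s < f z)).card : ℝ) * (univ.filter (fun w => a w < s)).card := by
    intro s
    calc ∑ w, ∑ z, (if a w < s ∧ s < f z then (1 : ℝ) else 0)
        = ∑ w, ∑ z, (if a w < s then (1 : ℝ) else 0) * (if s < f z then (1 : ℝ) else 0) := by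
          refine sum_congr rfl fun w _ => sum_congr rfl fun z _ => ?_
          by_cases h1 : a w < s <;> by_cases h2 : s < f z <;> simp [h1, h2]
      _ = (∑ w, (if a w < s then (1 : ℝ) else 0)) * ∑ z, (if s < f z then (1 : ℝ) else 0) := by
          rw [sum_mul_sum]
      _ = _ := by rw [sum_boole, sum_boole, mul_comm]
  rw [h1]
  calc ∫ s in Set.Ioo (0 : ℝ) b, ∑ w, ∑ z, (if a w < s ∧ s < f z then (1 : ℝ) else 0)
      ≤ ∫ _ in Set.Ioo (0 : ℝ) b, K := by
        refine setIntegral_mono_on ?_ (integrable_const K) measurableSet_Ioo ?_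
        · exact integrable_finsetSum _ (fun w _ => integrable_finsetSum _ (fun z _ =>
            layer_int _ _ _))
        · intro s hs
          rw [h2]
          exact h s hs
    _ = K * b := by
        rw [setIntegral_const, Real.volume_real_Ioo, smul_eq_mul, sub_zero, max_eq_left hb,
          mul_comm]

/-- **The profile lemma.** -/
theorem profile {Z W : Type*} [Fintype Z] [Fintype W] (k : ℕ) (hk : 2 ≤ k)
    (f : Z → ℝ) (g : W → ℝ) (hf0 : ∀ z, 0 ≤ f z) (hf1 : ∀ z, f z ≤ 1)
    (hg0 : ∀ z, 0 ≤ g z) (hg1 : ∀ z, g z ≤ 1) (K : ℝ) (hK : 0 ≤ K)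
    (hPQ : ∀ u ∈ Set.Ioo (0 : ℝ) 1, ((univ.filter (fun z => u ^ k < f z)).card : ℝ) *
      (univ.filter (fun z => (1 - u) ^ k < g z)).card ≤ K)
    (hXY : K < (∑ z, f z) * ∑ z, g z) :
    ∃ c ∈ Set.Ioo (0 : ℝ) 1, ∑ z, max (f z - c ^ k) 0 = (∑ z, f z) * (1 - c) ^ k ∧
      (∑ z, f z) * ∑ z, max (g z - (1 - c) ^ k) 0 ≤ K * c ^ k := by
  classical
  set X := ∑ z, f z with hX
  have hX0 : 0 ≤ X := sum_nonneg fun z _ => hf0 z
  have hY0 : 0 ≤ ∑ z, g z := sum_nonneg fun z _ => hg0 z
  have hXpos : 0 < X := by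
    rcases hX0.lt_or_eq with h | h
    · exact h
    · rw [← h, zero_mul] at hXY; linarith
  have hk0 : k ≠ 0 := by omega
  -- the function
  set φ : ℝ → ℝ := fun c => ∑ z, max (f z - c ^ k) 0 - X * (1 - c) ^ k with hφ
  have hcont : Continuous φ := by
    apply Continuous.sub
    · refine continuous_finsetSum _ fun z _ => ?_
      exact (continuous_const.sub (continuous_pow k)).max continuous_const
    · exact continuous_const.mul ((continuous_const.sub continuous_id).pow k)
  have hφ1 : φ 1 = 0 := by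
    simp only [hφ]
    rw [sub_self, zero_pow hk0, mul_zero, sub_zero, one_pow]
    refine sum_eq_zero fun z _ => ?_
    exact max_eq_right (by linarith [hf1 z])
  have hφ0 : 0 ≤ φ 0 := by
    simp only [hφ]
    rw [zero_pow hk0, sub_zero, one_pow, mul_one]
    have : ∑ z, max (f z - 0) 0 = X := by
      rw [hX]
      refine sum_congr rfl fun z _ => ?_
      rw [sub_zero, max_eq_left (hf0 z)]
    rw [this, sub_self]
  -- positivity near 0
  obtain ⟨δ, hδ0, hδ1, hδ⟩ : ∃ δ : ℝ, 0 < δ ∧ δ < 1 ∧ ∀ c, 0 < c → c ≤ δ → 0 < φ c := by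
    set n : ℝ := (Fintype.card Z : ℝ) with hn
    have hn0 : 0 ≤ n := Nat.cast_nonneg _
    refine ⟨min (1 / 2) (X / (2 * (n + 1))), ?_, ?_, ?_⟩
    · exact lt_min (by norm_num) (by positivity)
    · exact lt_of_le_of_lt (min_le_left _ _) (by norm_num)
    · intro c hc0 hc
      have hc1 : c ≤ 1 / 2 := hc.trans (min_le_left _ _)
      have hc2 : c ≤ X / (2 * (n + 1)) := hc.trans (min_le_right _ _)
      have h1 : X - n * c ^ k ≤ ∑ z, max (f z - c ^ k) 0 := by
        calc X - n * c ^ k = ∑ z, (f z - c ^ k) := by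
              rw [sum_sub_distrib, sum_const, card_univ, nsmul_eq_mul]
          _ ≤ _ := sum_le_sum fun z _ => le_max_left _ _
      have h2 : (1 - c) ^ k ≤ 1 - c := by
        calc (1 - c) ^ k ≤ (1 - c) ^ 1 :=
              pow_le_pow_of_le_one (by linarith) (by linarith) (by omega)
          _ = 1 - c := pow_one _
      have h3 : c ^ k ≤ c ^ 2 := pow_le_pow_of_le_one hc0.le (by linarith) hk
      have h4 : n * c < X := by
        rw [le_div_iff₀ (by positivity)] at hc2
        nlinarith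
      have h5 : n * c ^ k ≤ n * c * c := by nlinarith [mul_le_mul_of_nonneg_left h3 hn0]
      have h6 : n * c * c < X * c := mul_lt_mul_of_pos_right h4 hc0
      have h7 : X * (1 - c) ^ k ≤ X * (1 - c) := mul_le_mul_of_nonneg_left h2 hX0
      simp only [hφ]
      nlinarith
  -- the first zero
  set T : Set ℝ := Set.Icc δ 1 ∩ φ ⁻¹' (Set.Iic 0) with hT
  have hTc : IsClosed T := isClosed_Icc.inter (isClosed_Iic.preimage hcont)
  have h1T : (1 : ℝ) ∈ T := ⟨⟨hδ1.le, le_rfl⟩, by
    rw [Set.mem_preimage, hφ1]; exact Set.mem_Iic.2 le_rfl⟩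
  have hbdd : BddBelow T := ⟨δ, fun c hc => hc.1.1⟩
  set β := sInf T with hβ
  have hβT : β ∈ T := hTc.csInf_mem ⟨1, h1T⟩ hbdd
  have hβ0 : 0 < β := lt_of_lt_of_le hδ0 hβT.1.1
  have hβ1 : β ≤ 1 := hβT.1.2
  have hβφ : φ β ≤ 0 := hβT.2
  have hbelow : ∀ t, 0 ≤ t → t < β → 0 ≤ φ t := by
    intro t ht0 htβ
    rcases ht0.lt_or_eq with h | h
    · by_cases h2 : t ≤ δ
      · exact (hδ t h h2).le
      · by_contra h3
        have h4 : t ∈ T := ⟨⟨(not_le.1 h2).le, htβ.le.trans hβ1⟩, (not_le.1 h3).le⟩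
        exact absurd (csInf_le hbdd h4) (not_le.2 htβ)
    · rw [← h]; exact hφ0
  -- the main inequality
  have hkpos : (0 : ℝ) < k := by exact_mod_cast Nat.pos_of_ne_zero hk0
  let t : W → ℝ := fun w => 1 - (g w) ^ ((k : ℝ)⁻¹)
  have hroot : ∀ w, (1 - t w) ^ k = g w := by
    intro w
    simp only [t]
    rw [sub_sub_cancel]
    exact Real.rpow_inv_natCast_pow (hg0 w) hk0
  have hr0 : ∀ w, 0 ≤ (g w) ^ ((k : ℝ)⁻¹) := fun w => Real.rpow_nonneg (hg0 w) _
  have hr1 : ∀ w, (g w) ^ ((k : ℝ)⁻¹) ≤ 1 := fun w =>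
    Real.rpow_le_one (hg0 w) (hg1 w) (by positivity)
  have ht0 : ∀ w, 0 ≤ t w := fun w => by simp only [t]; linarith [hr1 w]
  have ht1 : ∀ w, t w ≤ 1 := fun w => by simp only [t]; linarith [hr0 w]
  have hpt : ∀ w, X * max (g w - (1 - β) ^ k) 0 ≤ ∑ z, max (min (f z) (β ^ k) - (t w) ^ k) 0 := by
    intro w
    by_cases h : g w ≤ (1 - β) ^ k
    · rw [max_eq_right (by linarith), mul_zero]
      exact sum_nonneg fun z _ => le_max_right _ _
    · have h := not_le.1 h
      have htβ : t w < β := by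
        by_contra h2
        have h2 := not_lt.1 h2
        have h3 : (1 - t w) ^ k ≤ (1 - β) ^ k :=
          pow_le_pow_left₀ (by linarith [ht1 w]) (by linarith) k
        rw [hroot] at h3
        linarith
      have h4 := hbelow (t w) (ht0 w) htβ
      simp only [hφ] at h4 hβφ
      rw [hroot] at h4
      rw [max_eq_left (by linarith)]
      have h5 : ∀ z, max (f z - (t w) ^ k) 0 - max (f z - β ^ k) 0
          ≤ max (min (f z) (β ^ k) - (t w) ^ k) 0 := by
        intro z
        have h6 : (t w) ^ k ≤ β ^ k := pow_le_pow_left₀ (ht0 w) htβ.le k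
        rcases le_total (f z) (β ^ k) with h7 | h7
        · rw [min_eq_left h7]
          linarith [le_max_right (f z - β ^ k) 0]
        · rw [min_eq_right h7, max_eq_left (by linarith), max_eq_left (by linarith),
            max_eq_left (by linarith)]
          linarith
      have h8 : ∑ z, max (f z - (t w) ^ k) 0 - ∑ z, max (f z - β ^ k) 0
          ≤ ∑ z, max (min (f z) (β ^ k) - (t w) ^ k) 0 := by
        rw [← sum_sub_distrib]
        exact sum_le_sum fun z _ => h5 z
      linarith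
  have hmain : X * ∑ w, max (g w - (1 - β) ^ k) 0 ≤ K * β ^ k := by
    rw [mul_sum]
    refine (sum_le_sum fun w _ => hpt w).trans ?_
    refine double_layer f (fun w => (t w) ^ k) (β ^ k) K (by positivity)
      (fun w => pow_nonneg (ht0 w) k) ?_
    intro s hs
    set u : ℝ := s ^ ((k : ℝ)⁻¹) with hu
    have hsu : u ^ k = s := Real.rpow_inv_natCast_pow hs.1.le hk0
    have hu0 : 0 < u := Real.rpow_pos_of_pos hs.1 _
    have huβ : u < β := by
      by_contra h2
      have h3 : β ^ k ≤ u ^ k := pow_le_pow_left₀ hβ0.le (not_lt.1 h2) k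
      rw [hsu] at h3
      exact absurd hs.2 (not_lt.2 h3)
    have hu1 : u < 1 := lt_of_lt_of_le huβ hβ1
    have h1 := hPQ u ⟨hu0, hu1⟩
    rw [hsu] at h1
    refine le_trans (mul_le_mul_of_nonneg_left ?_ (Nat.cast_nonneg _)) h1
    have h2 : (univ.filter (fun w => (t w) ^ k < s)) ⊆ univ.filter (fun w => (1 - u) ^ k < g w) := by
      intro w hw
      rw [mem_filter] at hw ⊢
      refine ⟨mem_univ _, ?_⟩
      have h3 : t w < u := by
        by_contra h4
        have h5 : u ^ k ≤ (t w) ^ k := pow_le_pow_left₀ hu0.le (not_lt.1 h4) k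
        rw [hsu] at h5
        exact absurd hw.2 (not_lt.2 h5)
      rw [← hroot w]
      exact pow_lt_pow_left₀ (by linarith) (by linarith) hk0
    exact_mod_cast card_le_card h2
  refine ⟨β, ⟨hβ0, ?_⟩, ?_, hmain⟩
  · rcases hβ1.lt_or_eq with h | h
    · exact h
    · exfalso
      rw [h, sub_self, zero_pow hk0, one_pow, mul_one] at hmain
      have h2 : ∑ w, max (g w - 0) 0 = ∑ w, g w := by
        refine sum_congr rfl fun w _ => ?_
        rw [sub_zero, max_eq_left (hg0 w)]
      rw [h2] at hmain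
      linarith
  · have h2 : 0 ≤ φ β := by
      have h3 : Filter.Tendsto φ (nhdsWithin β (Set.Iio β)) (nhds (φ β)) :=
        hcont.continuousWithinAt
      refine ge_of_tendsto h3 ?_
      filter_upwards [Ioo_mem_nhdsLT hβ0] with t ht
      exact hbelow t ht.1.le ht.2
    have h := le_antisymm hβφ h2
    simp only [hφ] at h
    linarith

end Pool.Agent.Helper75.E43
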