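import Mathlib
import Pool.Agent.Helper41.PX.Defs
import Pool.Agent.Helper75.E43.Prof

set_option autoImplicit false

/-! # The profile lemma and the excess lemma in averaged form -/

namespace Pool.Agent.Helper75.E43

open Finset MeasureTheory
open scoped BigOperators
open Pool.Agent.Helper41.PX

lemma mu_eq {Z : Type*} [Fintype Z] (P : Z → Prop) [DecidablePred P] :
    mu P = ((univ.filter P).card : ℝ) / Fintype.card Z := by
  classical
  unfold mu
  rw [Fintype.expect_eq_sum_div_card]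
  congr 1
  rw [← Finset.sum_boole]
  refine sum_congr rfl fun z _ => ?_
  by_cases h : P z <;> simp [h]

/-- **Excess lemma.** -/
theorem excess {Z : Type*} [Fintype Z] [Nonempty Z] (a b : Z → ℝ) (m M K : ℝ) (hmM : m ≤ M)
    (ha : ∀ z, a z ≤ M) (hb : ∀ z, m ≤ b z)
    (h : ∀ s, m < s → s < M → mu (fun z => s < a z) * mu (fun z => b z < s) ≤ K) :
    𝔼 z, 𝔼 w, max (a z - b w) 0 ≤ K * (M - m) := by
  classical
  have hN : (0 : ℝ) < Fintype.card Z := by exact_mod_cast Fintype.card_pos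
  set N : ℝ := (Fintype.card Z : ℝ) with hNdef
  have h1 := double_layer (fun z => a z - m) (fun z => b z - m) (M - m) (K * (N * N))
    (by linarith) (fun w => by linarith [hb w]) (by
      intro s hs
      have h2 := h (s + m) (by linarith [hs.1]) (by linarith [hs.2])
      rw [mu_eq, mu_eq, div_mul_div_comm, div_le_iff₀ (by positivity)] at h2
      have e1 : (univ.filter (fun z => s < a z - m)) = univ.filter (fun z => s + m < a z) := by
        ext z; simp [lt_sub_iff_add_lt]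
      have e2 : (univ.filter (fun z => b z - m < s)) = univ.filter (fun z => b z < s + m) := by
        ext z; simp [sub_lt_iff_lt_add]
      rw [e1, e2]
      exact h2)
  have h3 : ∑ w, ∑ z, max (min (a z - m) (M - m) - (b w - m)) 0
      = ∑ z, ∑ w, max (a z - b w) 0 := by
    rw [sum_comm]
    refine sum_congr rfl fun z _ => sum_congr rfl fun w _ => ?_
    rw [min_eq_left (by linarith [ha z])]
    congr 1
    ring
  rw [h3] at h1
  rw [Fintype.expect_eq_sum_div_card]
  have h4 : ∑ z, 𝔼 w, max (a z - b w) 0 = (∑ z, ∑ w, max (a z - b w) 0) / N := by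
    rw [sum_div]
    refine sum_congr rfl fun z _ => ?_
    rw [Fintype.expect_eq_sum_div_card]
  rw [h4, div_div, div_le_iff₀ (by positivity)]
  linarith

/-- **The profile lemma (Lemma Z), averaged form.** -/
theorem lemmaZ {Z : Type*} [Fintype Z] [Nonempty Z] (k : ℕ) (hk : 2 ≤ k) (f h : Z → ℝ)
    (hf0 : ∀ z, 0 ≤ f z) (hf1 : ∀ z, f z ≤ 1) (hh0 : ∀ z, 0 ≤ h z) (hh1 : ∀ z, h z ≤ 1)
    (K : ℝ) (hK : 0 ≤ K)
    (hp : ∀ t, 0 < t → t < 1 → mu (fun z => t ^ k < f z) * mu (fun z => (1 - t) ^ k < h z) ≤ K)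
    (hKK : K < (𝔼 z, f z) * 𝔼 z, h z) :
    ∃ c, 0 < c ∧ c < 1 ∧ 𝔼 z, max (f z - c ^ k) 0 = (1 - c) ^ k * 𝔼 z, f z ∧
      (𝔼 z, f z) * 𝔼 z, max (h z - (1 - c) ^ k) 0 ≤ K * c ^ k := by
  classical
  have hN : (0 : ℝ) < Fintype.card Z := by exact_mod_cast Fintype.card_pos
  set N : ℝ := (Fintype.card Z : ℝ) with hNdef
  have hE : ∀ q : Z → ℝ, 𝔼 z, q z = (∑ z, q z) / N := fun q =>
    Fintype.expect_eq_sum_div_card q
  rw [hE, hE, div_mul_div_comm, lt_div_iff₀ (by positivity)] at hKK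
  obtain ⟨c, hc, h1, h2⟩ := profile k hk f h hf0 hf1 hh0 hh1 (K * (N * N)) (by positivity) (by
    intro u hu
    have h2 := hp u hu.1 hu.2
    rw [mu_eq, mu_eq, div_mul_div_comm, div_le_iff₀ (by positivity)] at h2
    exact h2) hKK
  refine ⟨c, hc.1, hc.2, ?_, ?_⟩
  · rw [hE, hE, h1]; ring
  · rw [hE, hE, div_mul_div_comm, div_le_iff₀ (by positivity)]
    linarith

end Pool.Agent.Helper75.E43
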