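import Mathlib

set_option autoImplicit false

/-! # Counting edges in a weighted family -/

namespace Pool.Agent.Helper75.E43

open Finset
open scoped BigOperators

lemma exp_pow_card {ι : Type*} [Fintype ι] [DecidableEq ι] (E : Finset ι) (q : ℝ) :
    𝔼 z : ι → Bool, q ^ ((E.filter (fun e => z e = true)).card) = ((1 + q) / 2) ^ E.card := by
  classical
  have h1 : ∀ z : ι → Bool, q ^ ((E.filter (fun e => z e = true)).card)
      = ∏ i : ι, (if i ∈ E ∧ z i = true then q else 1) := by
    intro z
    rw [prod_ite, prod_const, prod_const_one, mul_one]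
    congr 2
    ext i
    simp
  have h2 : ∑ z : ι → Bool, ∏ i : ι, (if i ∈ E ∧ z i = true then q else 1)
      = ∏ i : ι, ∑ b : Bool, (if i ∈ E ∧ b = true then q else 1) := by
    rw [Finset.prod_univ_sum, Fintype.piFinset_univ]
  have h3 : ∀ i : ι, ∑ b : Bool, (if i ∈ E ∧ b = true then q else 1)
      = 2 * (if i ∈ E then (1 + q) / 2 else 1) := by
    intro i
    by_cases hi : i ∈ E
    · simp [hi]; ring
    · simp [hi]
  rw [Fintype.expect_eq_sum_div_card]
  simp_rw [h1]
  rw [h2]
  simp_rw [h3]
  rw [prod_mul_distrib, prod_const, card_univ, Fintype.card_fun, Fintype.card_bool]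
  have h4 : ∏ i : ι, (if i ∈ E then (1 + q) / 2 else 1) = ((1 + q) / 2) ^ E.card := by
    rw [prod_ite_mem, univ_inter, prod_const]
  rw [h4]
  push_cast
  field_simp

/-- Counting lemma for one capped density. -/
lemma count_cap {ι : Type*} [Fintype ι] [DecidableEq ι] (E : Finset ι)
    (p : (ι → Bool) → ℝ) (cap : ℝ) (hp0 : ∀ z, 0 ≤ p z) (hpc : ∀ z, p z ≤ cap)
    (x0 : ℝ) (h0 : 0 < x0) (t : ℝ) :
    (1 + t) * (𝔼 z, p z) - cap * (Real.exp t * ((1 + x0) / 2) ^ E.card) ≤
      Real.log (1 / x0) * 𝔼 z, p z * ((E.filter (fun e => z e = true)).card : ℝ) := by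
  have h1 : ∀ z : ι → Bool, (1 + t) * p z
      - cap * (Real.exp t * x0 ^ ((E.filter (fun e => z e = true)).card)) ≤
      Real.log (1 / x0) * (p z * ((E.filter (fun e => z e = true)).card : ℝ)) := by
    intro z
    set m := (E.filter (fun e => z e = true)).card with hm
    have h2 : x0 ^ m = Real.exp (- (Real.log (1 / x0) * m)) := by
      rw [one_div, Real.log_inv, neg_mul, neg_neg, mul_comm, ← Real.log_pow, Real.exp_log (by positivity)]
    have h3 := Real.add_one_le_exp (t - Real.log (1 / x0) * m)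
    have h4 : Real.exp t * x0 ^ m = Real.exp (t - Real.log (1 / x0) * m) := by
      rw [h2, ← Real.exp_add]
      congr 1
    rw [h4]
    have h5 : 0 ≤ Real.exp (t - Real.log (1 / x0) * m) := (Real.exp_pos _).le
    have h6 : p z * Real.exp (t - Real.log (1 / x0) * m)
        ≤ cap * Real.exp (t - Real.log (1 / x0) * m) := mul_le_mul_of_nonneg_right (hpc z) h5
    have h7 : p z * (t - Real.log (1 / x0) * m + 1)
        ≤ p z * Real.exp (t - Real.log (1 / x0) * m) := mul_le_mul_of_nonneg_left h3 (hp0 z)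
    nlinarith
  have h8 := Finset.expect_le_expect (s := univ) (fun z (_ : z ∈ univ) => h1 z)
  rw [Finset.expect_sub_distrib, ← Finset.mul_expect, ← Finset.mul_expect, ← Finset.mul_expect,
    ← Finset.mul_expect, exp_pow_card] at h8
  exact h8

/-- **Counting for one side.** -/
theorem count_side {ι : Type*} [Fintype ι] [DecidableEq ι] (E : Finset ι)
    (f : (ι → Bool) → ℝ) (hf0 : ∀ z, 0 ≤ f z) (hf1 : ∀ z, f z ≤ 1) (x y : ℝ)
    (hx : 0 < x) (hx1 : x < 1) (hy : 0 < y) (hy1 : y < 1) (hX : 0 < 𝔼 z, f z)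
    (he : 𝔼 z, max (f z - x) 0 ≤ y * 𝔼 z, f z) (x0 : ℝ) (h0 : 0 < x0) (_h1 : x0 < 1) :
    (𝔼 z, f z) * (E.card * Real.log (2 / (1 + x0)) + Real.log (𝔼 z, f z)
      + (1 - y) * Real.log (1 / x) - y * Real.log (1 / y) - y) ≤
      Real.log (1 / x0) * 𝔼 z, f z * ((E.filter (fun e => z e = true)).card : ℝ) := by
  set X := 𝔼 z, f z with hXdef
  set L : ℝ := E.card * Real.log (2 / (1 + x0)) with hL
  set m := 𝔼 z, max (f z - x) 0 with hm
  have hpow : ((1 + x0) / 2) ^ E.card = Real.exp (-L) := by
    rw [hL, ← mul_neg, ← Real.log_inv, inv_div, ← Real.log_pow, Real.exp_log (by positivity)]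
  have e1 := count_cap E (fun z => min (f z) x) x (fun z => le_min (hf0 z) hx.le)
    (fun z => min_le_right _ _) x0 h0 (L + Real.log X - Real.log x)
  have e2 := count_cap E (fun z => max (f z - x) 0) 1 (fun z => le_max_right _ _)
    (fun z => max_le (by linarith [hf1 z]) (by norm_num)) x0 h0 (L + Real.log X + Real.log y)
  rw [hpow, ← Real.exp_add] at e1 e2
  have c1 : x * Real.exp (L + Real.log X - Real.log x + -L) = X := by
    rw [show L + Real.log X - Real.log x + -L = Real.log X - Real.log x by ring, Real.exp_sub,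
      Real.exp_log hX, Real.exp_log hx]
    field_simp
  have c2 : Real.exp (L + Real.log X + Real.log y + -L) = X * y := by
    rw [show L + Real.log X + Real.log y + -L = Real.log X + Real.log y by ring, Real.exp_add,
      Real.exp_log hX, Real.exp_log hy]
  rw [c1] at e1
  rw [c2, one_mul] at e2
  have hsplit : ∀ z, min (f z) x + max (f z - x) 0 = f z := by
    intro z
    rcases le_total (f z) x with h | h
    · rw [min_eq_left h, max_eq_right (by linarith)]; ring
    · rw [min_eq_right h, max_eq_left (by linarith)]; ring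
  have s1 : (𝔼 z, min (f z) x) + m = X := by
    rw [hm, ← Finset.expect_add_distrib, hXdef]
    exact Finset.expect_congr rfl fun z _ => hsplit z
  have s2 : (𝔼 z, min (f z) x * ((E.filter (fun e => z e = true)).card : ℝ))
      + 𝔼 z, max (f z - x) 0 * ((E.filter (fun e => z e = true)).card : ℝ)
      = 𝔼 z, f z * ((E.filter (fun e => z e = true)).card : ℝ) := by
    rw [← Finset.expect_add_distrib]
    refine Finset.expect_congr rfl fun z _ => ?_
    rw [← add_mul, hsplit]
  rw [← s2, mul_add]
  have hlx : Real.log x < 0 := Real.log_neg hx hx1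
  have hly : Real.log y < 0 := Real.log_neg hy hy1
  have h9 : (𝔼 z, min (f z) x) = X - m := by linarith
  rw [h9] at e1
  rw [← hm] at e2
  have h10 : (Real.log y + Real.log x) * (y * X) ≤ (Real.log y + Real.log x) * m :=
    mul_le_mul_of_nonpos_left he (by linarith)
  simp only [one_div, Real.log_inv] at e1 e2 ⊢
  linarith

end Pool.Agent.Helper75.E43
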