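import Mathlib
import Pool.Agent.Helper41.PX.Hat
import Pool.Agent.Helper16.PX.Num
import Pool.Agent.Helper75.E43.Count

set_option autoImplicit false

/-! # The contradiction at one vertex -/

namespace Pool.Agent.Helper75.E43

open Finset
open scoped BigOperators
open Pool.Agent.Helper41.PX
open Pool.Agent.Helper64.PX3 (sb)

variable {V : Type*} [Fintype V] [DecidableEq V]

lemma card_edges (S : Finset V) : (edges S).card = S.card.choose 2 :=
  Sym2.card_image_offDiag S

lemma mem_edges {S : Finset V} {e : Sym2 V} (h : e ∈ edges S) :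
    ∃ a ∈ S, ∃ b ∈ S, a ≠ b ∧ e = s(a, b) := by
  obtain ⟨p, hp, rfl⟩ := mem_image.1 h
  rw [mem_offDiag] at hp
  exact ⟨p.1, hp.1, p.2, hp.2.1, hp.2.2, rfl⟩

lemma edges_not_star (S : Finset V) (v : V) (e : Sym2 V) (h : e ∈ edges (S.erase v)) :
    e ∉ star v := by
  obtain ⟨a, ha, b, hb, -, rfl⟩ := mem_edges h
  rw [mem_star_mk]
  rintro (rfl | rfl)
  · exact (mem_erase.1 ha).1 rfl
  · exact (mem_erase.1 hb).1 rfl

/-- The mean number of edges in terms of the toggle invariant parts. -/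
lemma mean_edges (S : Finset V) (v : V) (F : Conf V → Prop) (hF : Down F) :
    𝔼 z, fm v F z * (((edges (S.erase v)).filter (fun e => z e = true)).card : ℝ)
      = 1 / 2 * ∑ e ∈ edges (S.erase v), mu (hat e F) := by
  classical
  set E := edges (S.erase v) with hE
  set h : Conf V → ℝ := fun z => ((E.filter (fun e => z e = true)).card : ℝ) with hh
  have hinv : Inv (star v) h := by
    intro x y
    simp only [hh]
    congr 2
    refine filter_congr fun e he => ?_
    rw [ow_not_mem _ _ _ _ (edges_not_star S v e he)]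
  have h1 : 𝔼 z, fm v F z * h z = 𝔼 z, ind F z * h z := by
    have := avg_adj (star v) (ind F) h
    rw [hinv.avg_eq] at this
    exact this.symm
  have h2 : ∀ z, ind F z * h z = ∑ e ∈ E, ind (fun A => F A ∧ A e = true) z := by
    intro z
    have h3 : h z = ∑ e ∈ E, (if z e = true then (1 : ℝ) else 0) := by
      simp only [hh]
      rw [sum_boole]
    rw [h3, mul_sum]
    refine sum_congr rfl fun e _ => ?_
    by_cases hz : F z
    · by_cases hze : z e = true
      · rw [ind_of hz, if_pos hze, ind_of (P := fun A => F A ∧ A e = true) ⟨hz, hze⟩, mul_one]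
      · rw [if_neg hze, ind_of_not (P := fun A => F A ∧ A e = true) (fun h => hze h.2), mul_zero]
    · rw [ind_of_not hz, ind_of_not (P := fun A => F A ∧ A e = true) (fun h => hz h.1), zero_mul]
  calc 𝔼 z, fm v F z * h z = 𝔼 z, ind F z * h z := h1
    _ = 𝔼 z, ∑ e ∈ E, ind (fun A => F A ∧ A e = true) z :=
        Finset.expect_congr rfl fun z _ => h2 z
    _ = ∑ e ∈ E, 𝔼 z, ind (fun A => F A ∧ A e = true) z := by
        rw [Finset.expect_sum_comm]
    _ = ∑ e ∈ E, 1 / 2 * mu (hat e F) := by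
        refine sum_congr rfl fun e _ => ?_
        rw [← mu_ind, mu_hat e F hF]
    _ = _ := by rw [mul_sum]

lemma sb_pos (k : ℕ) : 0 < sb k := by
  unfold sb
  split_ifs <;> positivity

lemma sb_le (k : ℕ) (hk : 4 ≤ k) : sb k ≤ 0.17 := by
  unfold sb
  split_ifs with h
  · norm_num
  · have h5 : 5 ≤ k := by omega
    have h1 : (2 : ℝ) ^ 5 ≤ 2 ^ k := pow_le_pow_right₀ (by norm_num) h5
    rw [div_le_iff₀ (by positivity)]
    norm_num at h1 ⊢
    linarith

theorem contra (k : ℕ) (hk : 4 ≤ k) (S : Finset V) (v : V) (hv : v ∈ S) (hS : k + 3 ≤ S.card)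
    (F H : Conf V → Prop) (hF : Down F) (hH : Down H) (hXY : KK k < mu F * mu H)
    (c : ℝ) (hc0 : 0 < c) (hc1 : c < 1) (hs : c ^ k + (1 - c) ^ k ≤ sb k)
    (e1 : 𝔼 z, max (fm v F z - c ^ k) 0 ≤ (1 - c) ^ k * mu F)
    (e2 : 𝔼 z, max (fm v H z - (1 - c) ^ k) 0 ≤ c ^ k * mu H)
    (hp : ∀ a ∈ S.erase v, ∀ b ∈ S.erase v, a ≠ b →
      mu (hat s(a, b) F) / mu F + mu (hat s(a, b) H) / mu H
        ≤ 2 * sb k + 2 * (10 / 4 ^ k) / (1 - 2 * sb k)) : False := by
  classical
  have hk0 : k ≠ 0 := by omega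
  have hkr : (4 : ℝ) ≤ k := by exact_mod_cast hk
  have hKK : 0 < KK k := by unfold KK; positivity
  set X := mu F with hX
  set Y := mu H with hY
  have hX0 : 0 ≤ X := mu_nonneg F
  have hY0 : 0 ≤ Y := mu_nonneg H
  have hXp : 0 < X := by
    rcases hX0.lt_or_eq with h | h
    · exact h
    · rw [← h, zero_mul] at hXY; linarith
  have hYp : 0 < Y := by
    rcases hY0.lt_or_eq with h | h
    · exact h
    · rw [← h, mul_zero] at hXY; linarith
  set E := edges (S.erase v) with hE
  set x := c ^ k with hx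
  set y := (1 - c) ^ k with hy
  have hx0 : 0 < x := by positivity
  have hy0 : 0 < y := pow_pos (by linarith) k
  have hx1 : x < 1 := pow_lt_one₀ hc0.le hc1 hk0
  have hy1 : y < 1 := pow_lt_one₀ (by linarith) (by linarith) hk0
  have hx00 : (0 : ℝ) < 1 / (2 * (k : ℝ)) := by positivity
  have hx01 : 1 / (2 * (k : ℝ)) < 1 := by
    rw [div_lt_one (by positivity)]; linarith
  have cF := count_side E (fm v F) (fm_nonneg v F) (fm_le_one v F) x y hx0 hx1 hy0 hy1
    (by rw [exp_fm]; exact hXp) (by rw [exp_fm]; exact e1) (1 / (2 * (k : ℝ))) hx00 hx01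
  have cH := count_side E (fm v H) (fm_nonneg v H) (fm_le_one v H) y x hy0 hy1 hx0 hx1
    (by rw [exp_fm]; exact hYp) (by rw [exp_fm]; exact e2) (1 / (2 * (k : ℝ))) hx00 hx01
  rw [exp_fm, mean_edges S v F hF, ← hE] at cF
  rw [exp_fm, mean_edges S v H hH, ← hE] at cH
  rw [← hX] at cF
  rw [← hY] at cH
  rw [one_div_one_div] at cF cH
  set l := Real.log (2 * (k : ℝ)) with hl
  have hlpos : 0 < l := Real.log_pos (by linarith)
  set L := Real.log (2 / (1 + 1 / (2 * (k : ℝ)))) with hL
  set N : ℝ := (E.card : ℝ) with hN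
  -- divide
  have dF : N * L + Real.log X + (1 - y) * Real.log (1 / x) - y * Real.log (1 / y) - y
      ≤ l * (1 / 2) * ∑ e ∈ E, mu (hat e F) / X := by
    rw [← sum_div, ← mul_div_assoc, le_div_iff₀ hXp]
    linarith
  have dH : N * L + Real.log Y + (1 - x) * Real.log (1 / y) - x * Real.log (1 / x) - x
      ≤ l * (1 / 2) * ∑ e ∈ E, mu (hat e H) / Y := by
    rw [← sum_div, ← mul_div_assoc, le_div_iff₀ hYp]
    linarith
  have hsum : ∑ e ∈ E, (mu (hat e F) / X + mu (hat e H) / Y)
      ≤ N * (2 * sb k + 2 * (10 / 4 ^ k) / (1 - 2 * sb k)) := by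
    calc _ ≤ ∑ e ∈ E, (2 * sb k + 2 * (10 / 4 ^ k) / (1 - 2 * sb k)) := by
          refine sum_le_sum fun e he => ?_
          obtain ⟨a, ha, b, hb, hab, rfl⟩ := mem_edges he
          exact hp a ha b hb hab
      _ = _ := by rw [sum_const, nsmul_eq_mul]
  rw [sum_add_distrib] at hsum
  -- the size
  have hNge : ((k : ℝ) + 1) * (k + 2) / 2 ≤ N := by
    have h1 : (k + 2).choose 2 ≤ E.card := by
      rw [hE, card_edges, card_erase_of_mem hv]
      exact Nat.choose_le_choose 2 (by omega)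
    have h2 : ((k + 2).choose 2 : ℝ) = ((k : ℝ) + 1) * (k + 2) / 2 := by
      rw [Nat.cast_choose_two]
      push_cast
      ring
    rw [← h2, hN]
    exact_mod_cast h1
  have hfin := Pool.Agent.Helper16.PX.final_num k hk (sb k) N (sb_pos k).le le_rfl hNge
  -- logarithms
  have hlogXY : - (k * (k + 1) * Real.log 2) ≤ Real.log X + Real.log Y := by
    rw [← Real.log_mul hXp.ne' hYp.ne']
    have h1 : Real.log (KK k) = - (k * (k + 1) * Real.log 2) := by
      unfold KK
      rw [← pow_mul, Real.log_pow, one_div, Real.log_inv]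
      have h2 : (((k + 1).choose 2 * 2 : ℕ) : ℝ) = (k : ℝ) * (k + 1) := by
        rw [Nat.cast_mul, Nat.cast_choose_two]
        push_cast
        ring
      rw [h2]; ring
    rw [← h1]
    exact Real.log_le_log hKK hXY.le
  have hlogxy : 2 * k * Real.log 2 ≤ Real.log (1 / x) + Real.log (1 / y) := by
    rw [hx, hy, one_div, one_div, Real.log_inv, Real.log_inv, Real.log_pow, Real.log_pow]
    have h1 : Real.log c + Real.log (1 - c) ≤ - (2 * Real.log 2) := by
      rw [← Real.log_mul hc0.ne' (by linarith)]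
      have h2 : Real.log (1 / 4) = - (2 * Real.log 2) := by
        rw [one_div, Real.log_inv, show (4 : ℝ) = 2 ^ 2 by norm_num, Real.log_pow]
        push_cast; ring
      rw [← h2]
      refine Real.log_le_log (mul_pos hc0 (by linarith)) ?_
      nlinarith [sq_nonneg (c - 1 / 2)]
    nlinarith
  have hsb1 : sb k ≤ 0.17 := sb_le k hk
  have hone : 0 ≤ 1 - (x + y) := by linarith
  have hlog2 : 0 < Real.log 2 := Real.log_pos (by norm_num)
  have h7 : (1 - (x + y)) * (2 * k * Real.log 2) ≤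
      (1 - (x + y)) * (Real.log (1 / x) + Real.log (1 / y)) :=
    mul_le_mul_of_nonneg_left hlogxy hone
  have h8 : (1 - sb k) * (2 * k * Real.log 2) ≤ (1 - (x + y)) * (2 * k * Real.log 2) :=
    mul_le_mul_of_nonneg_right (by linarith) (by positivity)
  have h9 : l * (1 / 2) * (∑ e ∈ E, mu (hat e F) / X + ∑ e ∈ E, mu (hat e H) / Y)
      ≤ l * (1 / 2) * (N * (2 * sb k + 2 * (10 / 4 ^ k) / (1 - 2 * sb k))) :=
    mul_le_mul_of_nonneg_left hsum (by positivity)
  have h10 : l * (1 / 2) * (N * (2 * sb k + 2 * (10 / 4 ^ k) / (1 - 2 * sb k)))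
      = l * N * (sb k + (10 / 4 ^ k) / (1 - 2 * sb k)) := by ring
  rw [h10] at h9
  nlinarith

end Pool.Agent.Helper75.E43
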