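import Mathlib
import Pool.Agent.Helper75.E43.Table

set_option autoImplicit false

/-! # Parallel evaluation of cut averages on cells of 16 bits -/

namespace Pool.Agent.Helper75.E43

/-- cell number `g` of `A` -/
def cell (A g : ℕ) : ℕ := A / 2 ^ (16 * g) % 2 ^ 16

lemma cell_zero (A : ℕ) : cell A 0 = A % 2 ^ 16 := by simp [cell]

lemma cell_succ (A g : ℕ) : cell A (g + 1) = cell (A / 2 ^ 16) g := by
  unfold cell
  rw [Nat.div_div_eq_div_mul, ← pow_add]
  congr 3
  ring

lemma cell_add : ∀ (g A B : ℕ), (∀ j ≤ g, cell A j + cell B j < 2 ^ 16) →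
    cell (A + B) g = cell A g + cell B g := by
  intro g
  induction g with
  | zero =>
    intro A B h
    have h0 := h 0 le_rfl
    rw [cell_zero, cell_zero] at *
    rw [cell_zero, Nat.add_mod, Nat.mod_eq_of_lt h0]
  | succ g ih =>
    intro A B h
    have h0 := h 0 (Nat.zero_le _)
    rw [cell_zero, cell_zero] at h0
    rw [cell_succ, cell_succ, cell_succ]
    have h1 : (A + B) / 2 ^ 16 = A / 2 ^ 16 + B / 2 ^ 16 := by
      rw [Nat.add_div (by positivity), if_neg (by omega)]
      rfl
    rw [h1]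
    refine ih _ _ fun j hj => ?_
    have := h (j + 1) (by omega)
    rwa [cell_succ, cell_succ] at this

lemma testBit_cell (A g r : ℕ) : (cell A g).testBit r = (decide (r < 16) && A.testBit (16 * g + r)) := by
  unfold cell
  rw [Nat.testBit_mod_two_pow, Nat.testBit_div_two_pow]
  congr 2
  ring

/-- mask of the cells whose index has bit `e` equal to `0` -/
def mk (e : ℕ) : ℕ → ℕ
  | 0 => 2 ^ 2 ^ (4 + e) - 1
  | j + 1 => 2 ^ 2 ^ (5 + e + j) * mk e j + mk e j

lemma testBit_sub_two_pow (i m : ℕ) (h : 2 ^ m ≤ i) : (i - 2 ^ m).testBit m = !i.testBit m := by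
  obtain ⟨x, rfl⟩ := Nat.exists_eq_add_of_le h
  rw [Nat.add_sub_cancel_left, Nat.testBit_two_pow_add_eq]
  simp

lemma testBit_sub_two_pow_gt (i m s : ℕ) (hs : m < s) (h : 2 ^ s ≤ i) :
    (i - 2 ^ s).testBit m = i.testBit m := by
  obtain ⟨x, rfl⟩ := Nat.exists_eq_add_of_le h
  rw [Nat.add_sub_cancel_left, Nat.testBit_two_pow_add_gt hs]

lemma testBit_mk (e : ℕ) : ∀ (j i : ℕ),
    (mk e j).testBit i = (decide (i < 2 ^ (5 + e + j)) && !i.testBit (4 + e)) := by
  intro j
  induction j with
  | zero =>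
    intro i
    have h0 : mk e 0 = 2 ^ 2 ^ (4 + e) - 1 := rfl
    rw [h0, Nat.testBit_two_pow_sub_one]
    rw [add_zero]
    have hp : 2 ^ (5 + e) = 2 ^ (4 + e) + 2 ^ (4 + e) := by
      rw [show 5 + e = (4 + e) + 1 by ring, pow_succ]; ring
    by_cases h1 : i < 2 ^ (4 + e)
    · have h2 : i < 2 ^ (5 + e) := by omega
      rw [Nat.testBit_lt_two_pow h1]
      simp [h1, h2]
    · by_cases h2 : i < 2 ^ (5 + e)
      · have h3 : (i - 2 ^ (4 + e)).testBit (4 + e) = false :=
          Nat.testBit_lt_two_pow (by omega)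
        rw [testBit_sub_two_pow _ _ (by omega)] at h3
        simp only [Bool.not_eq_false'] at h3
        simp [h1, h3]
      · simp [h1, h2]
  | succ j ih =>
    intro i
    have h0 : mk e (j + 1) = 2 ^ 2 ^ (5 + e + j) * mk e j + mk e j := rfl
    have hlt : mk e j < 2 ^ 2 ^ (5 + e + j) := by
      apply Nat.lt_pow_two_of_testBit
      intro i hi
      rw [ih]
      simp [not_lt.2 hi]
    rw [h0, Nat.testBit_two_pow_mul_add _ hlt, ih, ih]
    have hp : 2 ^ (5 + e + (j + 1)) = 2 ^ (5 + e + j) + 2 ^ (5 + e + j) := by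
      rw [show 5 + e + (j + 1) = (5 + e + j) + 1 by ring, pow_succ]; ring
    by_cases h1 : i < 2 ^ (5 + e + j)
    · have h2 : i < 2 ^ (5 + e + (j + 1)) := by omega
      simp [h1, h2]
    · rw [if_neg h1, testBit_sub_two_pow_gt _ _ _ (by omega) (by omega)]
      by_cases h2 : i < 2 ^ (5 + e + (j + 1))
      · have h3 : i - 2 ^ (5 + e + j) < 2 ^ (5 + e + j) := by omega
        simp [h2, h3]
      · have h3 : ¬ i - 2 ^ (5 + e + j) < 2 ^ (5 + e + j) := by omega
        simp [h2, h3]

/-- copy the cells with bit `e` equal to `0` to those with bit `e` equal to `1` -/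
def col (e A : ℕ) : ℕ :=
  Nat.lor (Nat.land A (mk e (14 - e))) (Nat.shiftLeft (Nat.land A (mk e (14 - e))) (2 ^ (4 + e)))

/-- index of a graph given by its bits -/
def cd : ℕ → (ℕ → Bool) → ℕ
  | 0, _ => 0
  | n + 1, b => 2 ^ n * (b n).toNat + cd n b

lemma cd_lt : ∀ (n : ℕ) (b : ℕ → Bool), cd n b < 2 ^ n := by
  intro n
  induction n with
  | zero => intro b; simp [cd]
  | succ n ih =>
    intro b
    have h := ih b
    have h1 : (b n).toNat ≤ 1 := Bool.toNat_le _
    have h2 : cd (n + 1) b = 2 ^ n * (b n).toNat + cd n b := rfl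
    rw [h2, pow_succ]
    nlinarith [Nat.mul_le_mul_left (2 ^ n) h1]

lemma testBit_cd : ∀ (n : ℕ) (b : ℕ → Bool) (m : ℕ), m < n → (cd n b).testBit m = b m := by
  intro n
  induction n with
  | zero => intro b m h; omega
  | succ n ih =>
    intro b m h
    have h2 : cd (n + 1) b = 2 ^ n * (b n).toNat + cd n b := rfl
    rw [h2, Nat.testBit_two_pow_mul_add _ (cd_lt n b)]
    by_cases h3 : m < n
    · rw [if_pos h3]; exact ih b m h3
    · have h4 : m = n := by omega
      subst h4
      rw [if_neg h3, Nat.sub_self]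
      cases b m <;> rfl

lemma cd_congr : ∀ (n : ℕ) (b c : ℕ → Bool), (∀ i < n, b i = c i) → cd n b = cd n c := by
  intro n
  induction n with
  | zero => intro b c _; rfl
  | succ n ih =>
    intro b c h
    have h2 : ∀ b, cd (n + 1) b = 2 ^ n * (b n).toNat + cd n b := fun _ => rfl
    rw [h2, h2, h n (by omega), ih b c (fun i hi => h i (by omega))]

lemma cd_clear : ∀ (n : ℕ) (b : ℕ → Bool) (e : ℕ), e < n →
    cd n b = cd n (fun i => if i = e then false else b i) + 2 ^ e * (b e).toNat := by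
  intro n
  induction n with
  | zero => intro b e h; omega
  | succ n ih =>
    intro b e h
    have h2 : ∀ b, cd (n + 1) b = 2 ^ n * (b n).toNat + cd n b := fun _ => rfl
    rw [h2, h2]
    by_cases h3 : e < n
    · rw [ih b e h3, if_neg (by omega)]; ring
    · have h4 : e = n := by omega
      subst h4
      rw [if_pos rfl, cd_congr e b (fun i => if i = e then false else b i)
        (fun i hi => by rw [if_neg (by omega)])]
      simp
      ring

lemma cell_col (A : ℕ) (b : ℕ → Bool) (e : ℕ) (he : e < 15) :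
    cell (col e A) (cd 15 b) = cell A (cd 15 (fun i => if i = e then false else b i)) := by
  apply Nat.eq_of_testBit_eq
  intro r
  rw [testBit_cell, testBit_cell]
  by_cases hr : r < 16
  swap
  · simp [hr]
  simp only [hr, decide_true, Bool.true_and]
  have hcol : ∀ i, (col e A).testBit i =
      ((A.testBit i && (mk e (14 - e)).testBit i) ||
      (decide (2 ^ (4 + e) ≤ i) && (A.testBit (i - 2 ^ (4 + e)) &&
        (mk e (14 - e)).testBit (i - 2 ^ (4 + e))))) := by
    intro i
    show ((A &&& mk e (14 - e)) ||| ((A &&& mk e (14 - e)) <<< (2 ^ (4 + e)))).testBit i = _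
    rw [Nat.testBit_or, Nat.testBit_and, Nat.testBit_shiftLeft, Nat.testBit_and]
  rw [hcol, testBit_mk, testBit_mk]
  have hlen : 5 + e + (14 - e) = 19 := by omega
  rw [hlen]
  have hg : cd 15 b < 2 ^ 15 := cd_lt 15 b
  have hi : 16 * cd 15 b + r < 2 ^ 19 := by omega
  have hbit : ∀ b' : ℕ → Bool, (16 * cd 15 b' + r).testBit (4 + e) = b' e := by
    intro b'
    rw [show 16 * cd 15 b' + r = 2 ^ 4 * cd 15 b' + r by norm_num,
      Nat.testBit_two_pow_mul_add _ (by simpa using hr), if_neg (by omega),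
      show 4 + e - 4 = e by omega]
    exact testBit_cd 15 b' e he
  rw [hbit b]
  have hcl := cd_clear 15 b e he
  set b' : ℕ → Bool := fun i => if i = e then false else b i with hb'
  cases hbe : b e
  · rw [hbe] at hcl
    simp only [Bool.toNat_false, mul_zero, add_zero] at hcl
    rw [← hcl]
    simp only [hi, decide_true, Bool.not_false, Bool.and_true]
    by_cases h1 : 2 ^ (4 + e) ≤ 16 * cd 15 b + r
    · rw [testBit_sub_two_pow _ _ h1, hbit b, hbe]
      simp
    · simp [h1]
  · rw [hbe] at hcl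
    simp only [Bool.toNat_true, mul_one] at hcl
    have h1 : 16 * cd 15 b + r = (16 * cd 15 b' + r) + 2 ^ (4 + e) := by
      rw [hcl, pow_add]; ring
    have h2 : 2 ^ (4 + e) ≤ 16 * cd 15 b + r := by omega
    have h3 : 16 * cd 15 b + r - 2 ^ (4 + e) = 16 * cd 15 b' + r := by omega
    have h4 : 16 * cd 15 b' + r < 2 ^ 19 := lt_of_le_of_lt (by rw [h1]; exact Nat.le_add_right _ _) hi
    have h5 : b' e = false := by simp [hb']
    rw [h3, hbit b', h5, decide_eq_true h4, decide_eq_true h2]
    simp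

/-- check that the first `2 ^ d` cells lie between `lo` and `hi` -/
def chk (lo hi : ℕ) : ℕ → ℕ → Bool
  | 0, A => Nat.ble lo A && Nat.ble A hi
  | d + 1, A => chk lo hi d (A % 2 ^ 2 ^ (4 + d)) && chk lo hi d (A / 2 ^ 2 ^ (4 + d))

lemma chk_spec (lo hi : ℕ) (hhi : hi < 2 ^ 16) : ∀ (d A : ℕ), chk lo hi d A = true →
    ∀ g < 2 ^ d, lo ≤ cell A g ∧ cell A g ≤ hi := by
  intro d
  induction d with
  | zero =>
    intro A h g hg
    have hg0 : g = 0 := by simpa using hg
    subst hg0
    have h1 : (Nat.ble lo A && Nat.ble A hi) = true := h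
    rw [Bool.and_eq_true, Nat.ble_eq, Nat.ble_eq] at h1
    rw [cell_zero, Nat.mod_eq_of_lt (by omega)]
    exact h1
  | succ d ih =>
    intro A h g hg
    have h1 : (chk lo hi d (A % 2 ^ 2 ^ (4 + d)) && chk lo hi d (A / 2 ^ 2 ^ (4 + d))) = true := h
    rw [Bool.and_eq_true] at h1
    have hp : 2 ^ (4 + d) = 16 * 2 ^ d := by rw [pow_add]; norm_num
    by_cases h2 : g < 2 ^ d
    · have h3 := ih _ h1.1 g h2
      have h4 : cell (A % 2 ^ 2 ^ (4 + d)) g = cell A g := by
        apply Nat.eq_of_testBit_eq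
        intro r
        rw [testBit_cell, testBit_cell]
        by_cases hr : r < 16
        · rw [Nat.testBit_mod_two_pow]
          have h5 : 16 * g + r < 2 ^ (4 + d) := by omega
          simp [hr, h5]
        · simp [hr]
      rwa [h4] at h3
    · have h3 := ih _ h1.2 (g - 2 ^ d) (by rw [pow_succ] at hg; omega)
      have h4 : cell (A / 2 ^ 2 ^ (4 + d)) (g - 2 ^ d) = cell A g := by
        unfold cell
        rw [Nat.div_div_eq_div_mul, ← pow_add]
        congr 3
        omega
      rwa [h4] at h3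

end Pool.Agent.Helper75.E43
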