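import Mathlib
import Pool.Agent.Helper75.E43.Simd

set_option autoImplicit false

/-! # The kernel evaluation -/

namespace Pool.Agent.Helper75.E43

/-- colour of vertex `i` in colouring number `k`; vertex `5` has colour `0` -/
def cl (k i : ℕ) : ℕ := if i = 5 then 0 else k / 3 ^ i % 3

/-- edges of the complete graph on six vertices -/
def el : List (ℕ × ℕ) :=
  [(0,1),(0,2),(1,2),(0,3),(1,3),(2,3),(0,4),(1,4),(2,4),(3,4),(0,5),(1,5),(2,5),(3,5),(4,5)]

/-- index of an edge -/
def ix (p : ℕ × ℕ) : ℕ := p.2 * (p.2 - 1) / 2 + p.1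

/-- copy along the uncut edges of the list -/
def pr (k : ℕ) : List (ℕ × ℕ) → ℕ → ℕ
  | [], A => A
  | p :: l, A => if Nat.beq (cl k p.1) (cl k p.2) then col (ix p) (pr k l A) else pr k l A

/-- sum over the first colourings -/
def sm : ℕ → ℕ
  | 0 => 0
  | k + 1 => sm k + pr k el T

theorem chk_T : chk 1 127 15 T = true := by decide +kernel

theorem chk_S : chk 15309 15795 15 (sm 243 - 15066) = true := by decide +kernel

end Pool.Agent.Helper75.E43
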