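import Mathlib
import Pool.Agent.Helper38.C3.Base

set_option autoImplicit false

/-! # Three colours: the exact bound from a cut certificate -/

namespace Pool.Agent.Helper75.E43

open Finset
open Pool.Agent.Helper64.CX (Cfg Pr Col enc Pr_enc enc_eq Cross Bound card_cfg)
open Pool.Agent.Helper38.C3

/-- edges cut by a colouring -/
def cut3 (n : ℕ) (s : Fin n → Fin 3) : Finset (Ed n) := univ.filter (fun p => s p.1.1 ≠ s p.1.2)

lemma col_of_sub3 (n : ℕ) (A B : Cfg n) (s : Fin n → Fin 3)
    (h : symmDiff (es n A) (es n B) ⊆ cut3 n s) : Col 3 n A B := by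
  refine ⟨s, ?_⟩
  rw [← enc_dec n A, ← enc_dec n B, Pr_enc]
  intro i j hij hne
  have h1 : (⟨(i, j), hij⟩ : Ed n) ∈ symmDiff (es n A) (es n B) := by
    rw [mem_symmDiff, mem_es, mem_es]
    simp only
    cases ha : dec n A i j <;> cases hb : dec n B i j <;> simp_all
  have h2 := h h1
  simpa [cut3] using h2

/-- The Hoffman form of the bound for three colours. -/
theorem hoff_three (n : ℕ) (φ : Finset (Ed n) → ℝ) (h0 : φ ∅ = 63)
    (hY : ∀ R : Finset (Ed n), R.Nonempty →
      |∑ s : Fin n → Fin 3, φ (R ∩ cut3 n s)| ≤ 3 ^ n)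
    (F G : Finset (Cfg n)) (h : Cross 3 n F G) :
    3969 * ((F.card : ℝ) * G.card) ≤
      ((2 : ℝ) ^ (n.choose 2) - F.card) * ((2 : ℝ) ^ (n.choose 2) - G.card) := by
  classical
  have h1 := hoffman (E := Ed n) (S := Fin n → Fin 3) (cut3 n) φ 63 (by norm_num) h0 (by
    intro R hR
    have := hY R hR
    have hc : ((Fintype.card (Fin n → Fin 3) : ℕ) : ℝ) = 3 ^ n := by
      rw [Fintype.card_fun, Fintype.card_fin, Fintype.card_fin]; push_cast; rfl
    rw [hc]
    exact this) (F.image (es n)) (G.image (es n)) (by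
    intro A' hA' B' hB' s hs
    obtain ⟨A, hA, rfl⟩ := mem_image.1 hA'
    obtain ⟨B, hB, rfl⟩ := mem_image.1 hB'
    exact h A hA B hB (col_of_sub3 n A B s hs))
  rw [card_image_of_injective _ (es_inj n), card_image_of_injective _ (es_inj n), card_ed] at h1
  norm_num at h1
  linarith

/-- The exact bound for three colours from a cut certificate. -/
theorem bound_three_of (n : ℕ) (φ : Finset (Ed n) → ℝ) (h0 : φ ∅ = 63)
    (hY : ∀ R : Finset (Ed n), R.Nonempty →
      |∑ s : Fin n → Fin 3, φ (R ∩ cut3 n s)| ≤ 3 ^ n) : Bound 3 n (1 / 4096) := by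
  intro F G h
  have h1 := hoff_three n φ h0 hY F G h
  set M : ℝ := (2 : ℝ) ^ (n.choose 2) with hM
  set f : ℝ := (F.card : ℝ) with hf
  set g : ℝ := (G.card : ℝ) with hg
  have hM0 : 0 < M := by positivity
  have hf0 : 0 ≤ f := Nat.cast_nonneg _
  have hg0 : 0 ≤ g := Nat.cast_nonneg _
  by_contra hcon
  push Not at hcon
  have h2 : M ^ 2 < 4096 * (f * g) := by linarith
  have h3 : M < 32 * (f + g) := by
    by_contra h4
    push Not at h4
    have h5 : (32 * (f + g)) ^ 2 ≤ M ^ 2 := by
      apply pow_le_pow_left₀ (by positivity) h4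
    nlinarith [sq_nonneg (f - g)]
  nlinarith

end Pool.Agent.Helper75.E43
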