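import Mathlib
import Pool.Agent.Helper75.E43.Chk
import Pool.Agent.Helper75.E43.Hoff3

set_option autoImplicit false

/-! # Three colours, six vertices: the exact bound -/

namespace Pool.Agent.Helper75.E43

open Finset
open Pool.Agent.Helper64.CX (Cfg Pr Col enc Pr_enc enc_eq Cross Bound card_cfg)
open Pool.Agent.Helper38.C3

/-- switch off the bits of the uncut edges -/
def clr (k : ℕ) : List (ℕ × ℕ) → (ℕ → Bool) → (ℕ → Bool)
  | [], b => b
  | p :: l, b => if cl k p.1 = cl k p.2 then clr k l (fun i => if i = ix p then false else b i)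
      else clr k l b

lemma cell_pr (k : ℕ) (A : ℕ) : ∀ (l : List (ℕ × ℕ)) (b : ℕ → Bool), (∀ p ∈ l, ix p < 15) →
    cell (pr k l A) (cd 15 b) = cell A (cd 15 (clr k l b)) := by
  intro l
  induction l with
  | nil => intro b _; rfl
  | cons p l ih =>
    intro b h
    have h1 : pr k (p :: l) A = if Nat.beq (cl k p.1) (cl k p.2) then col (ix p) (pr k l A)
      else pr k l A := rfl
    have h2 : clr k (p :: l) b = if cl k p.1 = cl k p.2 then
      clr k l (fun i => if i = ix p then false else b i) else clr k l b := rfl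
    rw [h1, h2]
    have hl : ∀ q ∈ l, ix q < 15 := fun q hq => h q (List.mem_cons_of_mem _ hq)
    by_cases h3 : cl k p.1 = cl k p.2
    · rw [if_pos (by rw [h3]; exact Nat.beq_refl _), if_pos h3,
        cell_col _ _ _ (h p List.mem_cons_self), ih _ hl]
    · rw [if_neg (by rw [Nat.beq_eq]; exact h3), if_neg h3, ih _ hl]

lemma clr_apply (k : ℕ) : ∀ (l : List (ℕ × ℕ)) (b : ℕ → Bool) (i : ℕ),
    clr k l b i = true ↔ b i = true ∧ ∀ p ∈ l, cl k p.1 = cl k p.2 → ix p ≠ i := by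
  intro l
  induction l with
  | nil => intro b i; simp [clr]
  | cons p l ih =>
    intro b i
    have h2 : clr k (p :: l) b = if cl k p.1 = cl k p.2 then
      clr k l (fun i => if i = ix p then false else b i) else clr k l b := rfl
    rw [h2]
    by_cases h3 : cl k p.1 = cl k p.2
    · rw [if_pos h3, ih]
      by_cases h4 : i = ix p
      · subst h4
        simp [h3]
      · simp only [if_neg h4, List.mem_cons, forall_eq_or_imp]
        constructor
        · rintro ⟨h5, h6⟩; exact ⟨h5, fun _ h7 => h4 h7.symm, h6⟩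
        · rintro ⟨h5, _, h6⟩; exact ⟨h5, h6⟩
    · rw [if_neg h3, ih]
      simp only [List.mem_cons, forall_eq_or_imp]
      constructor
      · rintro ⟨h5, h6⟩; exact ⟨h5, fun h7 => absurd h7 h3, h6⟩
      · rintro ⟨h5, _, h6⟩; exact ⟨h5, h6⟩

lemma el_lt : ∀ p ∈ el, ix p < 15 := by decide

lemma exists_cd (j : ℕ) (hj : j < 2 ^ 15) : cd 15 (fun i => j.testBit i) = j := by
  apply Nat.eq_of_testBit_eq
  intro i
  by_cases hi : i < 15
  · rw [testBit_cd _ _ _ hi]
  · rw [Nat.testBit_lt_two_pow (lt_of_lt_of_le (cd_lt 15 _) (Nat.pow_le_pow_right (by norm_num)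
      (not_lt.1 hi))), Nat.testBit_lt_two_pow (lt_of_lt_of_le hj (Nat.pow_le_pow_right (by norm_num)
      (not_lt.1 hi)))]

lemma T_le (b : ℕ → Bool) : cell T (cd 15 b) ≤ 127 :=
  (chk_spec 1 127 (by norm_num) 15 T chk_T _ (cd_lt 15 b)).2

lemma cell_sm : ∀ (K : ℕ), K ≤ 243 → ∀ b : ℕ → Bool,
    cell (sm K) (cd 15 b) = ∑ k ∈ range K, cell T (cd 15 (clr k el b)) := by
  intro K
  induction K with
  | zero => intro _ b; simp [sm, cell]
  | succ K ih =>
    intro hK b
    have h1 : sm (K + 1) = sm K + pr K el T := rfl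
    rw [h1, sum_range_succ, ← ih (by omega) b, ← cell_pr K T el b el_lt]
    apply cell_add
    intro j hj
    have hj2 : j < 2 ^ 15 := lt_of_le_of_lt hj (cd_lt 15 b)
    rw [← exists_cd j hj2, ih (by omega), cell_pr K T el _ el_lt]
    have h2 : ∑ k ∈ range K, cell T (cd 15 (clr k el (fun i => j.testBit i))) ≤ K * 127 := by
      calc _ ≤ ∑ k ∈ range K, 127 := sum_le_sum fun k _ => T_le _
        _ = K * 127 := by rw [sum_const, card_range, smul_eq_mul]
    have h3 := T_le (clr K el (fun i => j.testBit i))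
    omega

lemma sm_bound (b : ℕ → Bool) (hb : 0 < cd 15 b) :
    15309 ≤ cell (sm 243) (cd 15 b) ∧ cell (sm 243) (cd 15 b) ≤ 15795 := by
  have hS := chk_spec 15309 15795 (by norm_num) 15 (sm 243 - 15066) chk_S
  have hge : 15066 ≤ sm 243 := by
    by_contra hlt
    have h0 : sm 243 - 15066 = 0 := by omega
    have h1 := (hS 0 (by norm_num)).1
    rw [h0] at h1
    simp [cell] at h1
  obtain ⟨S', hS'⟩ : ∃ S', S' = sm 243 - 15066 := ⟨_, rfl⟩
  have h2 : sm 243 = S' + 15066 := by omega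
  have h15 : ∀ j, cell 15066 (j + 1) = 0 := by
    intro j
    rw [cell_succ, Nat.div_eq_of_lt (by norm_num)]
    simp [cell]
  have h16 : ∀ j, cell 15066 j ≤ 15066 := by
    intro j
    cases j with
    | zero => rw [cell_zero]; norm_num
    | succ j => rw [h15]; omega
  rw [← hS'] at hS
  obtain ⟨g, hg⟩ : ∃ g, cd 15 b = g + 1 := ⟨cd 15 b - 1, by omega⟩
  have hlt := cd_lt 15 b
  rw [h2, cell_add _ _ _ (fun j hj => by
    have h3 := (hS j (lt_of_le_of_lt hj hlt)).2
    have h4 := h16 j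
    omega), hg, h15, add_zero, ← hg]
  exact hS _ hlt

/-- bits of a set of edges -/
noncomputable def bt (R : Finset (Ed 6)) (i : ℕ) : Bool :=
  decide (∃ p ∈ R, ix (p.1.1.val, p.1.2.val) = i)

lemma bt_iff (R : Finset (Ed 6)) (i : ℕ) :
    bt R i = true ↔ ∃ p ∈ R, ix (p.1.1.val, p.1.2.val) = i := by simp [bt]

/-- the certificate -/
noncomputable def ph (R : Finset (Ed 6)) : ℝ := (cell T (cd 15 (bt R)) : ℝ) - 64

lemma mem_el : ∀ p : Ed 6, (p.1.1.val, p.1.2.val) ∈ el := by decide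

lemma el_spec : ∀ p ∈ el, p.1 < p.2 ∧ p.2 < 6 := by decide

lemma ix_inj : ∀ p ∈ el, ∀ q ∈ el, ix p = ix q → p = q := by decide

lemma cd_false : cd 15 (fun _ => false) = 0 := by decide

lemma ph_empty : ph ∅ = 63 := by
  have h1 : bt ∅ = fun _ => false := by
    funext i
    rw [← Bool.not_eq_true, bt_iff]
    simp
  have h2 : cell T 0 = 127 := by
    unfold cell
    decide +kernel
  unfold ph
  rw [h1, cd_false, h2]
  norm_num

lemma bt_pos (R : Finset (Ed 6)) (h : R.Nonempty) : 0 < cd 15 (bt R) := by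
  obtain ⟨p, hp⟩ := h
  rw [Nat.pos_iff_ne_zero]
  intro h0
  have h1 := testBit_cd 15 (bt R) (ix (p.1.1.val, p.1.2.val)) (el_lt _ (mem_el p))
  rw [h0, Nat.zero_testBit] at h1
  have h2 := (bt_iff R (ix (p.1.1.val, p.1.2.val))).2 ⟨p, hp, rfl⟩
  rw [h2] at h1
  exact absurd h1 (by decide)

lemma key (s : Fin 6 → Fin 3) (k : ℕ) (hs : ∀ i : Fin 6, (s i).val = cl k i.val)
    (R : Finset (Ed 6)) : cd 15 (bt (R ∩ cut3 6 s)) = cd 15 (clr k el (bt R)) := by
  apply cd_congr
  intro i _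
  rw [Bool.eq_iff_iff, bt_iff, clr_apply, bt_iff]
  constructor
  · rintro ⟨p, hp, hi⟩
    rw [mem_inter] at hp
    refine ⟨⟨p, hp.1, hi⟩, ?_⟩
    intro q hq hsame hqi
    have h1 : q = (p.1.1.val, p.1.2.val) := ix_inj _ hq _ (mem_el p) (by rw [hqi, hi])
    rw [h1] at hsame
    have h2 := hp.2
    rw [cut3, mem_filter] at h2
    apply h2.2
    apply Fin.ext
    rw [hs, hs]
    exact hsame
  · rintro ⟨⟨p, hp, hi⟩, h1⟩
    refine ⟨p, ?_, hi⟩
    rw [mem_inter]
    refine ⟨hp, ?_⟩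
    rw [cut3, mem_filter]
    refine ⟨mem_univ _, ?_⟩
    intro h2
    refine h1 _ (mem_el p) ?_ hi
    show cl k p.1.1.val = cl k p.1.2.val
    rw [← hs, ← hs, h2]

lemma inner (R : Finset (Ed 6)) (hR : R.Nonempty) :
    |∑ t : Fin 5 → Fin 3, ph (R ∩ cut3 6 (Fin.snoc (α := fun _ => Fin 3) t 0))| ≤ 243 := by
  have h1 : ∑ t : Fin 5 → Fin 3, ph (R ∩ cut3 6 (Fin.snoc (α := fun _ => Fin 3) t 0))
      = ∑ k ∈ range 243, ((cell T (cd 15 (clr k el (bt R))) : ℝ) - 64) := by
    rw [← Equiv.sum_comp (finFunctionFinEquiv (m := 3) (n := 5)).symm]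
    rw [Finset.sum_range (n := 243)]
    refine Fintype.sum_congr _ _ fun a => ?_
    unfold ph
    rw [key _ a.val]
    intro i
    refine Fin.lastCases ?_ (fun j => ?_) i
    · rw [Fin.snoc_last]
      simp [cl]
    · rw [Fin.snoc_castSucc]
      have hj : (j.castSucc).val ≠ 5 := by
        have := j.2
        simp only [Fin.val_castSucc]
        omega
      rw [cl, if_neg hj]
      rfl
  rw [h1, sum_sub_distrib, sum_const, card_range, nsmul_eq_mul, ← Nat.cast_sum,
    ← cell_sm 243 le_rfl]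
  obtain ⟨h2, h3⟩ := sm_bound (bt R) (bt_pos R hR)
  have h4 : (15309 : ℝ) ≤ (cell (sm 243) (cd 15 (bt R)) : ℝ) := by exact_mod_cast h2
  have h5 : (cell (sm 243) (cd 15 (bt R)) : ℝ) ≤ 15795 := by exact_mod_cast h3
  rw [abs_le]
  constructor <;> push_cast <;> linarith

lemma cut_shift (t : Fin 5 → Fin 3) (c : Fin 3) :
    cut3 6 (Fin.snoc (α := fun _ => Fin 3) (fun i => t i + c) c)
      = cut3 6 (Fin.snoc (α := fun _ => Fin 3) t 0) := by
  have h : ∀ i : Fin 6, (Fin.snoc (α := fun _ => Fin 3) (fun i => t i + c) c : Fin 6 → Fin 3) i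
      = (Fin.snoc (α := fun _ => Fin 3) t 0 : Fin 6 → Fin 3) i + c := by
    intro i
    refine Fin.lastCases ?_ (fun j => ?_) i
    · rw [Fin.snoc_last, Fin.snoc_last, zero_add]
    · rw [Fin.snoc_castSucc, Fin.snoc_castSucc]
  unfold cut3
  ext p
  rw [mem_filter, mem_filter, h, h]
  simp

lemma outer (R : Finset (Ed 6)) (hR : R.Nonempty) :
    |∑ s : Fin 6 → Fin 3, ph (R ∩ cut3 6 s)| ≤ 3 ^ 6 := by
  have h1 : ∑ s : Fin 6 → Fin 3, ph (R ∩ cut3 6 s)
      = ∑ c : Fin 3, ∑ t : Fin 5 → Fin 3, ph (R ∩ cut3 6 (Fin.snoc (α := fun _ => Fin 3) t c)) := by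
    rw [← Equiv.sum_comp (Fin.snocEquiv (fun _ : Fin 6 => Fin 3)), Fintype.sum_prod_type]
    rfl
  have h2 : ∀ c : Fin 3,
      ∑ t : Fin 5 → Fin 3, ph (R ∩ cut3 6 (Fin.snoc (α := fun _ => Fin 3) t c))
      = ∑ t : Fin 5 → Fin 3, ph (R ∩ cut3 6 (Fin.snoc (α := fun _ => Fin 3) t 0)) := by
    intro c
    rw [← Equiv.sum_comp (Equiv.piCongrRight (fun _ : Fin 5 => Equiv.addRight c))]
    refine Fintype.sum_congr _ _ fun t => ?_
    have := cut_shift t c
    rw [← this]
    rfl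
  rw [h1, sum_congr rfl (fun c _ => h2 c), sum_const, card_univ, Fintype.card_fin, nsmul_eq_mul,
    abs_mul]
  have h3 := inner R hR
  rw [abs_of_pos (by norm_num : (0 : ℝ) < ((3 : ℕ) : ℝ))]
  push_cast
  norm_num
  linarith

/-- **Hoffman form for three colours and six vertices.** -/
theorem hoff_three_six (F G : Finset (Cfg 6)) (h : Cross 3 6 F G) :
    3969 * ((F.card : ℝ) * G.card) ≤
      ((2 : ℝ) ^ (Nat.choose 6 2) - F.card) * ((2 : ℝ) ^ (Nat.choose 6 2) - G.card) :=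
  hoff_three 6 ph ph_empty outer F G h

/-- **The exact bound for three colours and six vertices.** -/
theorem bound_three_six : Bound 3 6 (1 / 4096) := bound_three_of 6 ph ph_empty outer

end Pool.Agent.Helper75.E43
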